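import Mathlib
import Pool.Agent.Q258.KTriEnd

set_option autoImplicit false

/-!
# Triangular values of `π (k n)` with `k < p_n / 2`: the counterexample `n = 1471`

The `1471`-st prime is `12301`, and for no positive integer `k < 12301 / 2` is `π (1471 k)` a
triangular number.  The values `π (1471 k)`, `k ≤ 6150`, are computed by a sieve evaluated by the
kernel and compared with the triangular numbers.
-/

namespace Pool.Agent.Results.MP_3093d2_nt.Counterexample1471

theorem result :
    Nat.nth Nat.Prime (1471 - 1) = 12301 ∧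
    ∃ n : ℕ, n = 1471 ∧ 9 < n ∧
      ∀ k : ℕ, 1 ≤ k → (k : ℝ) < (Nat.nth Nat.Prime (n - 1) : ℝ) / 2 →
        ∀ m : ℕ, Nat.primeCounting (k * n) ≠ m * (m + 1) / 2 := by
  have hn : Nat.nth Nat.Prime (1471 - 1) = 12301 := Pool.Agent.Q258.KTri.nth_1470
  refine ⟨hn, 1471, rfl, by norm_num, ?_⟩
  intro k hk1 hk2 m
  rw [hn] at hk2
  have h : (k : ℝ) < 6151 := by
    have : ((12301 : ℕ) : ℝ) = 12301 := by norm_num
    rw [this] at hk2
    linarith
  have h2 : k < 6151 := by exact_mod_cast h
  exact Pool.Agent.Q258.KTri.main k hk1 (by omega) m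

end Pool.Agent.Results.MP_3093d2_nt.Counterexample1471
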